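import Pool.Agent.Helper72.MK.GoalsT

/-!
# Area of a convex set with a chord and two further points
-/

open MeasureTheory Set Filter Topology
open scoped ENNReal

namespace Pool.Agent.Helper22.MK

open Pool.Agent.Helper72.MK

/-- The linear form whose sign tells the side of the line `x + ℝ u`. -/
def lf (x u v : Fin 2 → ℝ) : ℝ := u 0 * (v 1 - x 1) - u 1 * (v 0 - x 0)

theorem lf_comb (x u y : Fin 2 → ℝ) (s t : ℝ) :
    lf x u (x + (s • u + t • (y - x))) = t * lf x u y := by
  simp only [lf, Pi.add_apply, Pi.smul_apply, Pi.sub_apply, smul_eq_mul]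
  ring

theorem meas_lf (x u : Fin 2 → ℝ) : MeasurableSet {v | 0 < lf x u v} := by
  apply measurableSet_lt measurable_const
  unfold lf
  fun_prop

theorem tri_le (hT : TRIStmt) {P : Set (Fin 2 → ℝ)} (hP : Convex ℝ P) {x u y : Fin 2 → ℝ}
    (hx : x ∈ P) (hu : x + u ∈ P) (hy : y ∈ P) {S : Set (Fin 2 → ℝ)}
    (hS : ∀ s t : ℝ, 0 < t → x + (s • u + t • (y - x)) ∈ S) :
    ENNReal.ofReal (|lf x u y| / 2) ≤ volume (P ∩ S) := by
  have h1 := hT u (y - x)
  have e : |u 0 * (y - x) 1 - u 1 * (y - x) 0| = |lf x u y| := rfl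
  rw [e] at h1
  rw [← h1, ← measure_preimage_add volume x (P ∩ S)]
  apply measure_mono
  rintro _ ⟨s, t, hs, ht, hst, rfl⟩
  refine ⟨?_, hS s t ht⟩
  have h2 : x + (s • u + t • (y - x)) = (1 - s - t) • x + s • (x + u) + t • y := by
    ext i
    simp only [Pi.add_apply, Pi.smul_apply, Pi.sub_apply, smul_eq_mul]
    ring
  show x + (s • u + t • (y - x)) ∈ P
  rw [h2]
  have h3 := hP.sum_mem (t := Finset.univ) (w := ![1 - s - t, s, t]) (z := ![x, x + u, y])
    (by intro i _; fin_cases i <;> simp <;> linarith) (by simp [Fin.sum_univ_three]; ring)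
    (by intro i _; fin_cases i <;> simp [hx, hu, hy])
  simpa [Fin.sum_univ_three] using h3

theorem opp (hT : TRIStmt) {P : Set (Fin 2 → ℝ)} (hP : Convex ℝ P) {x u y y' : Fin 2 → ℝ}
    (hx : x ∈ P) (hu : x + u ∈ P) (hy : y ∈ P) (hy' : y' ∈ P) (h : 0 < lf x u y)
    (h' : lf x u y' ≤ 0) :
    ENNReal.ofReal (|lf x u y - lf x u y'| / 2) ≤ volume P := by
  rw [← measure_inter_add_sdiff P (meas_lf x u)]
  have h1 := tri_le hT hP hx hu hy (S := {v | 0 < lf x u v}) (by
    intro s t ht
    rw [mem_ofPred_eq, lf_comb]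
    exact mul_pos ht h)
  have h2 := tri_le hT hP hx hu hy' (S := {v | 0 < lf x u v}ᶜ) (by
    intro s t ht
    rw [mem_compl_iff, mem_ofPred_eq, lf_comb, not_lt]
    exact mul_nonpos_of_nonneg_of_nonpos ht.le h')
  have e : |lf x u y - lf x u y'| / 2 = |lf x u y| / 2 + |lf x u y'| / 2 := by
    rw [abs_of_pos h, abs_of_nonpos h', abs_of_pos (by linarith)]
    ring
  rw [e, ENNReal.ofReal_add (by positivity) (by positivity)]
  exact add_le_add h1 h2

theorem one (hT : TRIStmt) {P : Set (Fin 2 → ℝ)} (hP : Convex ℝ P) {x u y : Fin 2 → ℝ}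
    (hx : x ∈ P) (hu : x + u ∈ P) (hy : y ∈ P) {c : ℝ} (hc : |c| ≤ |lf x u y|) :
    ENNReal.ofReal (|c| / 2) ≤ volume P := by
  have h1 := tri_le hT hP hx hu hy (S := univ) (by intros; trivial)
  rw [inter_univ] at h1
  exact (ENNReal.ofReal_le_ofReal (by linarith)).trans h1

theorem chord (hT : TRIStmt) : CHORDStmt := by
  intro P hP x u y y' hx hu hy hy'
  have e : u 0 * (y 1 - y' 1) - u 1 * (y 0 - y' 0) = lf x u y - lf x u y' := by
    unfold lf
    ring
  rw [e]
  rcases lt_or_ge 0 (lf x u y) with h | h <;> rcases lt_or_ge 0 (lf x u y') with h' | h'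
  · rcases le_total (lf x u y) (lf x u y') with h2 | h2
    · exact one hT hP hx hu hy' (by rw [abs_of_nonpos (by linarith), abs_of_pos h']; linarith)
    · exact one hT hP hx hu hy (by rw [abs_of_nonneg (by linarith), abs_of_pos h]; linarith)
  · exact opp hT hP hx hu hy hy' h h'
  · rw [abs_sub_comm]
    exact opp hT hP hx hu hy' hy h' h
  · rcases le_total (lf x u y) (lf x u y') with h2 | h2
    · exact one hT hP hx hu hy (by rw [abs_of_nonpos (by linarith), abs_of_nonpos h]; linarith)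
    · exact one hT hP hx hu hy' (by rw [abs_of_nonneg (by linarith), abs_of_nonpos h']; linarith)

end Pool.Agent.Helper22.MK
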